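import Pool.Agent.N179.GR.Defs

/-!
# The noncommutative variational Hodge conjecture and independent families: definitions
-/

set_option autoImplicit false

open TensorProduct

universe u

namespace Pool.Agent.N179.NV

open Pool.Agent.TH125.Gal Pool.Agent.N179.GR.S
open Pool.Agent.H914 Pool.Agent.H914.VarClass Pool.Agent.H914.VarClass.Obj
  Pool.Agent.H914.WeilCohomology

section Alg

/-- The linear actions of the group `Γ` on the vector space `M`. -/
abbrev LinAct (K : Type) [Field K] (M : Type) [AddCommGroup M] [Module K M] (Γ : Type)
    [Group Γ] : Type := Γ →* (M →ₗ[K] M)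

/-- The subspaces of `A ⊗ M`. -/
abbrev Subs (K : Type) [Field K] (A : Type) [Ring A] [Algebra K A] (M : Type)
    [AddCommGroup M] [Module K M] : Type := Submodule K (A ⊗[K] M)

variable {K : Type} [Field K] {A : Type} [Ring A] [Algebra K A] {B : Type} [Ring B]
  [Algebra K B] {M : Type} [AddCommGroup M] [Module K M] {Γ : Type} [Group Γ]

/-- The action of `g` on the tensor product. -/
noncomputable def tact (ρ : AlgActs K A Γ) (τ : LinAct K M Γ) (g : Γ) :
    A ⊗[K] M →ₗ[K] A ⊗[K] M :=
  TensorProduct.map ((show Γ →* (A ≃ₐ[K] A) from ρ) g).toLinearMap (τ g)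

/-- All elements of `C` which are fixed by a subgroup of finite index are in `D`. -/
def FixedIn (ρ : AlgActs K A Γ) (τ : LinAct K M Γ) (C D : Subs K A M) : Prop :=
  ∀ c ∈ C, (∃ Δ : Subgroup Γ, Δ.FiniteIndex ∧ ∀ g ∈ Δ, tact ρ τ g c = c) → c ∈ D

/-- The pull-back by `f` maps `C` to `D`. -/
def PullStable (f : B →ₐ[K] A) (C : Subs K B M) (D : Subs K A M) : Prop :=
  ∀ c ∈ C, f.toLinearMap.rTensor M c ∈ D

/-- The push-forward by `q` maps `C` to `D`. -/
def PushStable (q : A →ₗ[K] B) (C : Subs K A M) (D : Subs K B M) : Prop :=
  ∀ c ∈ C, q.rTensor M c ∈ D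

/-- The products of elements of the sets `S j` and of `C` are in `C`. -/
def MulStable (S : ℕ → Set A) (C : Subs K A M) : Prop :=
  ∀ j, ∀ a ∈ S j, ∀ c ∈ C, (LinearMap.mulLeft K a).rTensor M c ∈ C

/-- Every semi-invariant element is a linear combination of elements of the sets `S j`. -/
def SemiIn [FiniteDimensional K A] (S : ℕ → Set A) (ρ : Γ →* (A ≃ₐ[K] A)) : Prop :=
  ∀ z ∈ semis ρ, z ∈ Submodule.span K (⋃ j, S j)

/-- An element of one of the sets `S i` is zero if the traces of its products with the elements of all
the sets `S j` are zero. -/
def NondegOn (S : ℕ → Set A) (tr : A →ₗ[K] K) : Prop :=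
  ∀ i, ∀ a ∈ S i, (∀ j, ∀ b ∈ S j, tr (a * b) = 0) → a = 0

/-- The representation given by a linear action. -/
def linRep [FiniteDimensional K M] (τ : LinAct K M Γ) : GRep K Γ where
  V := M
  act := τ
  one := fun x => by rw [map_one]; rfl
  mul := fun g h x => by rw [map_mul]; rfl

end Alg

variable {k : Type u} [Field k] {𝒱 : VarClass k} {ops : CycleOps 𝒱}

/-- The topological K-theory `M` of a fibre of a family `𝒞` of categories over a base with the
fundamental group `Γ`, and for all points `t` of the base and all `V` in `𝒱` (families of smooth
projective varieties) the span `obj t V` in `H(V) ⊗ M` of the classes of the objects of `D(V) ⊠ 𝒞` over the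
point `t`, compatible with pull-back, with the product with the classes of (relative) cycles on `V`,
and with push-forward along projections. -/
structure CatVar (W : WeilCohomology.{u, 0} ops) (Γ : Type) [Group Γ] (T : Type) where
  /-- the topological K-theory of `𝒞` -/
  M : Type
  [grp : AddCommGroup M]
  [mod : Module W.K M]
  [fin : Module.Finite W.K M]
  /-- the monodromy action -/
  act : LinAct W.K M Γ
  /-- the classes of the objects over the point `t` -/
  obj : T → ∀ V : 𝒱.Obj, Subs W.K (W.H V) M
  pull : ∀ (t : T) {V V' : 𝒱.Obj} (f : V ⟶ V'), PullStable (W.map f) (obj t V') (obj t V)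
  mul : ∀ (t : T) (V : 𝒱.Obj), MulStable (algClasses W V) (obj t V)
  push : ∀ (t : T) (V V' : 𝒱.Obj),
    PushStable (W.push (snd V V')) (obj t (V.prod V')) (obj t V')

attribute [instance] CatVar.grp CatVar.mod CatVar.fin

variable {W : WeilCohomology.{u, 0} ops} {Γ : Type} [Group Γ] {T : Type}

/-- The representation on the topological K-theory of `𝒞`. -/
def CatVar.rep (X : CatVar W Γ T) : GRep W.K Γ := linRep X.act

/-- The noncommutative variational Hodge conjecture for `D(V) ⊠ 𝒞`: all classes which are fixed by a
subgroup of finite index and come from objects over the point `s` come from objects over the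
point `t`, for all `s`, `t`. -/
def NCVarHodge (V : GVar W Γ) (X : CatVar W Γ T) : Prop :=
  ∀ s t, FixedIn V.act X.act (X.obj s V.X) (X.obj t V.X)

/-- The factor `P`: `Γ` preserves the degrees and the trace form, the relative cycles are fixed by
subgroups of finite index, the semi-invariant classes are combinations of classes of relative cycles,
the class of a relative cycle is zero if all its intersection numbers with relative cycles are zero,
and there is a zero-cycle of degree different from `0`. -/
structure Factor (P : GVar W Γ) : Prop where
  galois : IsGaloisAct (1 : Γ →* W.Kˣ) (W.gr P.X) P.X.dim (W.tr P.X) (algClasses W P.X) P.act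
  semi : SemiIn (algClasses W P.X) P.act
  num : NondegOn (algClasses W P.X) (W.tr P.X)
  point : HasPoint P

/-- The noncommutative variational Hodge conjecture for `D(Y) ⊠ 𝒞`, where `Y` is a tower over `Z`
with factors without indices in `E`, is equivalent to the conjecture for `D(Z) ⊠ 𝒞`. -/
def NCOutside {ι : Type} (V : ι → GRep W.K Γ) (Z : GVar W Γ) (X : CatVar W Γ T) (E : Set ι) :
    Prop :=
  ∀ (L : List (ι × GVar W Γ)) (Y : GVar W Γ), Tower V Z L Y →
    (∀ x ∈ L, x.1 ∉ E ∧ Factor x.2) → (NCVarHodge Y X ↔ NCVarHodge Z X)

/-- The set `E` of exceptional indices with respect to `U` is finite, and the number of its elements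
is at most `d - d'`, where `d` is the dimension of `U` and `d'` is the dimension of the span of the
semi-invariant vectors; it is at most `(d - d') / 2` if `U` carries a nondegenerate form which is
invariant up to a character. -/
structure Bounded {ι : Type} {K : Type} [Field K] {Γ : Type} [Group Γ] (U : GRep K Γ)
    (E : Set ι) : Prop where
  finite : E.Finite
  card : E.ncard + (semiSpan U).dim ≤ dim U
  form : (∃ B : Form U, InvForm B) → 2 * E.ncard + (semiSpan U).dim ≤ dim U

/-- `E U` is the set of the exceptional indices with respect to the representation `U`: it is finite with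
the bounds `Bounded`; no `j ≠ i` is exceptional with respect to `V i`; and if the cohomology of `Z` is
generated by finitely many representations `U a` (for instance by its own cohomology, or by the
empty set of representations if `Z` is a point), then `NCOutside` is true for `Z`, all families of
categories `X`, and the union of the sets `E (U a)` and `E (M)`. -/
structure NCSplitting {ι : Type} (V : ι → GRep W.K Γ) (E : GRep W.K Γ → Set ι) : Prop where
  bounded : ∀ U, Bounded U (E U)
  self : ∀ i, E (V i) ⊆ {i}
  outside : ∀ (T : Type) (m : ℕ) (U : Fin m → GRep W.K Γ) (Z : GVar W Γ) (X : CatVar W Γ T),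
    GeneratedBy U Z → NCOutside V Z X ((⋃ a, E (U a)) ∪ E X.rep)

end Pool.Agent.N179.NV
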