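import Pool.Agent.N179.NV.Defs
import Pool.Agent.N179.LG.Fin

/-!
# The noncommutative variational Hodge conjecture and independent families: the theorem
-/

set_option autoImplicit false
set_option linter.unusedSectionVars false

open CategoryTheory AlgebraicGeometry
open scoped TensorProduct

universe u

namespace Pool.Agent.N179.NV

open Module Pool.Agent.TH125.Gal Pool.Agent.N179.GR Pool.Agent.N179.GR.S

open Pool.Agent.H914 Pool.Agent.H914.VarClass Pool.Agent.H914.VarClass.Obj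
  Pool.Agent.H914.WeilCohomology Pool.Agent.W552 Pool.Agent.H281R3.HT

variable {k : Type u} [Field k] {𝒱 : VarClass k} {ops : CycleOps 𝒱}
  {W : WeilCohomology.{u, 0} ops} {Γ : Type} [Group Γ] {T : Type}

section step

variable {X : CatVar W Γ T} {P Y : GVar W Γ} {s₀ t₀ : T}
  {υ : Γ →* (W.H (P.X.prod Y.X) ≃ₐ[W.K] W.H (P.X.prod Y.X))}

theorem mul_spanN {t : T} {V : 𝒱.Obj} {a : W.H V} (ha : a ∈ algSpan W V)
    {c : W.H V ⊗[W.K] X.M} (hc : c ∈ X.obj t V) :
    (LinearMap.mulLeft W.K a).rTensor X.M c ∈ X.obj t V := by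
  induction ha using Submodule.span_induction with
  | mem a ha =>
    obtain ⟨j, hj⟩ := Set.mem_iUnion.1 ha
    exact X.mul t V j a hj c hc
  | zero =>
    have h1 : LinearMap.mulLeft W.K (0 : W.H V) = 0 := by
      apply LinearMap.ext
      intro x
      simp
    rw [h1, LinearMap.rTensor_zero]
    exact Submodule.zero_mem _
  | add x y _ _ hx hy =>
    have h1 : LinearMap.mulLeft W.K (x + y) = LinearMap.mulLeft W.K x + LinearMap.mulLeft W.K y := by
      apply LinearMap.ext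
      intro z
      simp [add_mul]
    rw [h1, LinearMap.rTensor_add]
    exact Submodule.add_mem _ hx hy
  | smul q x _ hx =>
    have h1 : LinearMap.mulLeft W.K (q • x) = q • LinearMap.mulLeft W.K x := by
      apply LinearMap.ext
      intro z
      simp
    rw [h1, LinearMap.rTensor_smul]
    exact Submodule.smul_mem _ _ hx

theorem map_algSpan {V V' : 𝒱.Obj} (f : V ⟶ V') {a : W.H V'} (ha : a ∈ algSpan W V') :
    W.map f a ∈ algSpan W V := by
  induction ha using Submodule.span_induction with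
  | mem a ha =>
    obtain ⟨j, hj⟩ := Set.mem_iUnion.1 ha
    exact Submodule.subset_span (Set.mem_iUnion.2 ⟨j, alg_map f hj⟩)
  | zero => rw [map_zero]; exact Submodule.zero_mem _
  | add x y _ _ hx hy => rw [map_add]; exact Submodule.add_mem _ hx hy
  | smul q x _ hx => rw [map_smul]; exact Submodule.smul_mem _ _ hx

/-- **One step.** -/
theorem stepN (hG : IsGalois W (1 : Γ →* W.Kˣ) P.X P.act) (hDX : HomEqNum W P.X)
    (h1 : Intertwines (W.map (fst P.X Y.X)) P.act υ)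
    (h2 : Intertwines (W.map (snd P.X Y.X)) Y.act υ)
    (hs : ∀ z : W.H (P.X.prod Y.X) ⊗[W.K] X.M, (∃ Δ : Subgroup Γ, Δ.FiniteIndex ∧
      ∀ g ∈ Δ, LG.sigM (⟨P.X.prod Y.X, υ⟩ : GVar W Γ) X.act g z = z) →
      ∀ ψ : Module.Dual W.K (W.H Y.X ⊗[W.K] X.M),
        FO.ctrN ψ (FO.theta W P.X Y.X X.M z) ∈ algSpan W P.X)
    (hT : FixedIn Y.act X.act (X.obj s₀ Y.X) (X.obj t₀ Y.X)) :
    FixedIn υ X.act (X.obj s₀ (P.X.prod Y.X)) (X.obj t₀ (P.X.prod Y.X)) := by
  obtain ⟨s⟩ := exists_SB hDX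
  obtain ⟨Δ', hΔ', hfix⟩ := exists_fix hG s
  rintro c hcm ⟨Δ, hΔ, hc⟩
  have hc' : ∀ g ∈ Δ, LG.sigM (⟨P.X.prod Y.X, υ⟩ : GVar W Γ) X.act g c = c := hc
  have hK := hs c ⟨Δ, hΔ, hc'⟩
  change c ∈ X.obj t₀ (P.X.prod Y.X)
  rw [FO.expandM s c, Fintype.sum_sum_type]
  refine Submodule.add_mem _ (Submodule.sum_mem _ fun l _ => ?_)
    (Submodule.sum_mem _ fun i _ => ?_)
  swap
  · rw [LG.KM_inrL s i hK, map_zero, map_zero]
    exact Submodule.zero_mem _
  have h3 : FO.KM s Y.X X.M (Sum.inl l) c ∈ X.obj s₀ Y.X := by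
    have h4 : FO.KM s Y.X X.M (Sum.inl l) c = (W.push (snd P.X Y.X)).rTensor X.M
        ((LinearMap.mulLeft W.K (W.map (fst P.X Y.X) (s.uC l : W.H P.X))).rTensor X.M c) := by
      unfold FO.KM
      rw [← LinearMap.comp_apply, ← LinearMap.rTensor_comp]
      congr 2
      apply LinearMap.ext
      intro z
      exact FO.ctr_push s l z
    rw [h4]
    exact X.push s₀ P.X Y.X _ (mul_spanN (map_algSpan (fst P.X Y.X) (s.uC l).2) hcm)
  have hx := hT _ h3 ⟨Δ ⊓ Δ', inferInstance, fun g hg => by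
    have h4 := congrArg (FO.KM s Y.X X.M (Sum.inl l)) (hc' g hg.1)
    rw [LG.KM_actL hG h1 h2 s l (hfix g hg.2), MonoidHom.one_apply, Units.val_one, one_pow,
      one_smul] at h4
    exact h4⟩
  have h5 := mul_spanN (X := X) (t := t₀) (V := P.X.prod Y.X)
    (map_algSpan (fst P.X Y.X) (s.bC l).2) (X.pull t₀ (snd P.X Y.X) _ hx)
  rw [s.e_inl]
  exact h5

/-- The converse. -/
theorem convN (h2 : Intertwines (W.map (snd P.X Y.X)) Y.act υ) (hpt : HasPoint P)
    (hT : FixedIn υ X.act (X.obj s₀ (P.X.prod Y.X)) (X.obj t₀ (P.X.prod Y.X))) :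
    FixedIn Y.act X.act (X.obj s₀ Y.X) (X.obj t₀ Y.X) := by
  rintro c hcm ⟨Δ, hΔ, hc⟩
  have hc' : ∀ g ∈ Δ, LG.sigM Y X.act g c = c := hc
  have h4 := hT _ (X.pull s₀ (snd P.X Y.X) _ hcm) ⟨Δ, hΔ, fun g hg => by
    change LG.sigM (⟨P.X.prod Y.X, υ⟩ : GVar W Γ) X.act g _ = _
    rw [LG.snd_actL h2, hc' g hg]⟩
  obtain ⟨a, ha, ha0⟩ := hpt
  have h5 := X.push t₀ P.X Y.X _ (X.mul t₀ _ P.X.dim _ (alg_map (fst P.X Y.X) ha) _ h4)
  rw [LG.push_mul_sndL] at h5
  exact (Submodule.smul_mem_iff _ ha0).1 h5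

end step

section tower

variable {ι : Type} {V : ι → GRep W.K Γ} {Z : GVar W Γ} {L : List (ι × GVar W Γ)} {Y : GVar W Γ}
  {X : CatVar W Γ T}

theorem tower_nc [IsAlgClosed W.K] {m : ℕ} {E : Set ι} {U : Fin m → GRep W.K Γ}
    (hU : ∀ i ∉ E, ∀ a, Spl (fl (V i)) {fl (U a)})
    (hX : ∀ i ∉ E, Spl (fl (V i)) {full X.M X.act})
    (hV : ∀ i ∉ E, ∀ j ∉ E, j ≠ i → Spl (fl (V i)) {fl (V j)})
    (hZ : GeneratedBy U Z) (hY : S.Tower V Z L Y) :
    (∀ x ∈ L, x.1 ∉ E ∧ Factor x.2) → (NCVarHodge Y X ↔ NCVarHodge Z X) := by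
  induction hY with
  | base => exact fun _ => Iff.rfl
  | @step L Y i P υ hT hi hP hυ ih =>
    intro hL
    have hL' := fun x hx => hL x (List.mem_cons_of_mem (i, P) hx)
    obtain ⟨hiE, hF⟩ := hL (i, P) List.mem_cons_self
    rw [← ih hL']
    refine ⟨fun h s t => convN hυ.2 hF.point (h s t), fun h s t =>
      stepN (isGalois hF.galois) (LG.homEqNum_of hF.num) hυ.1 hυ.2 (fun z hz ψ => ?_) (h s t)⟩
    obtain ⟨Δ, hΔ, hg⟩ := hz
    have h5 := LG.slicesL hZ hT (i := i) (hU i hiE) (hX i hiE)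
      (fun x hx => hV i hiE x.1 (hL' x hx).1 (hi x hx)) hP hυ.1 hυ.2 (z := z)
      ⟨Δ, hΔ, fun g hgg => ⟨1, (hg g hgg).trans (one_smul _ _).symm⟩⟩ ψ
    exact (Submodule.span_le.2 fun y hy => hF.semi y hy) h5

end tower

/-- **The theorem.** -/
theorem final (hK : Nonempty (W.K ≃+* ℂ)) {ι : Type} {V : ι → GRep W.K Γ} (hV : Family V) :
    ∃ E : GRep W.K Γ → Set ι, NCSplitting V E := by
  obtain ⟨e⟩ := hK
  have halg : IsAlgClosed W.K := IsAlgClosed.of_ringEquiv ℂ W.K e.symm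
  refine ⟨Exc V, ⟨fun U => ⟨(exceptional e hV U).finite, (exceptional e hV U).card,
    (exceptional e hV U).card_form⟩, fun j i hi => ?_, fun T m U Z X hZ L Y hY hL => ?_⟩⟩
  · by_contra h
    exact hi (hV.pair h)
  · refine tower_nc (U := U) (E := (⋃ a, Exc V (U a)) ∪ Exc V X.rep) (fun i hi a => ?_)
      (fun i hi => ?_) (fun i _ j _ hij => hV.pair hij.symm) hZ hY hL
    · by_contra h
      exact hi (Or.inl (Set.mem_iUnion.2 ⟨a, h⟩))
    · by_contra h
      exact hi (Or.inr h)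

end Pool.Agent.N179.NV
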